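import Pool.Agent.Helper492_GE.Rel

/-!
# The group `GL₂` of rings graded by commutative monoids

`C` is any class of groups with the closure properties `ClosedE C` which contains the solvable groups and
the groups `F ⋊ ℤ` for all free groups `F`. All this is published for the class of the groups that
satisfy the K- and L-theoretic Farrell-Jones conjecture with coefficients and finite wreath products.

Let `P` be a commutative cancellative monoid whose only unit is `0`, and let `A` be a `P`-graded ring which
embeds in a division ring `D`, with part `A₀` of degree zero. Then `GL₂(A)` is in `C` if and only if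
`GL₂(A₀)` is in `C`; more generally, for a subgroup `H` of `GL₂(A₀)` the group of the matrices in `GL₂(A)`
whose part of degree zero is in `H` is in `C` if and only if `H` is.

Examples: the semigroup rings `R[P]` (`P` a submonoid of `ℤⁿ` that contains no line, or the monoid of the
nonnegative elements of any totally ordered abelian group), if they embed in division rings; free
associative algebras; section rings of line bundles.

Outline of the proof. A finitely generated subgroup of `GL₂(A)` involves only finitely many degrees, which
generate a submonoid `P'` of `P`. By Gordan's theorem there is a homomorphism `w : P' → ℕ` which is zero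
only at `0`. By `∑ a_p ↦ ∑ a_p t^(w p)` the ring `A' = ⨁ A_p` (over the `p` in `P'`) embeds in `D[t]`, so that
`GL₂(A')` is mapped to the group `Γ` of the elements of `GL₂(D[t])` whose value at `t = 0` is in the image
`H'` of `H` in `GL₂(D)`. The kernel `N` of the evaluation at `t = 0` on `GL₂(D[t])` is contained in `Γ`, it is
the free product of abelian unipotent groups, one for each line in `D²`, and `Γ ⧸ N` is isomorphic to `H'`.
So `MP_490288_al.FreeProductExtensions` applies to `Γ`.
-/

set_option autoImplicit false

namespace Pool.Agent.Results.MP_b6f35e_al.MonoidGradedRings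

open Pool.Agent.Y110.FJ Pool.Agent.R684.FP Pool.Agent.Helper492_GE

theorem result (C : ∀ (G : Type) [Group G], Prop) (hC : ClosedE C) (hF : FbC C)
    (hS : ∀ (S : Type) [Group S], Group.IsSolvable S → C S)
    (P A D σ : Type) [AddCommMonoid P] [IsCancelAdd P] [DecidableEq P] [Ring A] [DivisionRing D]
    [SetLike σ A] [AddSubgroupClass σ A] (𝒜 : P → σ) [GradedRing 𝒜]
    (hP : ∀ p q : P, p + q = 0 → p = 0) (j : A →+* D) (hj : Function.Injective j) :
    (C (Matrix (Fin 2) (Fin 2) A)ˣ ↔ C (Matrix (Fin 2) (Fin 2) (𝒜 0))ˣ) ∧
    ∀ H : Subgroup (Matrix (Fin 2) (Fin 2) (𝒜 0))ˣ,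
      C ↥(H.comap (mapU (zeroPart 𝒜 hP))) ↔ C ↥H :=
  ⟨iff_top 𝒜 j hP hC hF hS hj, fun H => iff_rel 𝒜 j hP hC hF hS hj H⟩

end Pool.Agent.Results.MP_b6f35e_al.MonoidGradedRings
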